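import Pool.Agent.Y398.KZ.Stm

/-!
KZ-CLIMB (project KZ of helper398): climbing from level one to a given road of level `j`.
-/

set_option autoImplicit false

namespace Pool.Agent.Y907.KZ

open Pool.Agent.Y398.KZ

theorem dt_add (z z' : ℂ) (μ : ℝ) : dt (z + z') μ = dt z μ + dt z' μ := by
  unfold dt
  rw [Complex.add_re, Complex.add_im]
  ring

theorem dt_zero (μ : ℝ) : dt 0 μ = 0 := by simp [dt]

theorem base (t : ℕ → ℤ → ℤ) (x : ℂ) (μ : ℝ) (sg : ℤ) (hsg : sg = 1 ∨ sg = -1) (a b : ℤ)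
    (ha : |a| ≤ 2 * q 1)
    (h3 : (w 1 : ℝ) ≤ sl 1 a * x.re + ic t 1 a b - x.im)
    (h4 : sl 1 a * x.re + ic t 1 a b - x.im ≤ 9 / 4 * (w 1 : ℝ)) :
    ∃ (p : Rd) (i : ℤ) (n : ℕ), p.Ok ∧ p.j = 1 ∧ p.h = false ∧ ‖p.p t - x‖ ≤ 25 ∧
    Chn t n p ⟨false, 1, a, b, i⟩ ∧
    -1 ≤ (sg : ℝ) * ((⟨false, 1, a, b, i⟩ : Rd).x - x.re) ∧
    (sg : ℝ) * ((⟨false, 1, a, b, i⟩ : Rd).x - x.re) ≤ 3 * s (1 - 1) + 1 ∧
    (n : ℝ) ≤ (sg : ℝ) * dt ((⟨false, 1, a, b, i⟩ : Rd).p t - p.p t) μ +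
      840 * (1 - 1 / ((1 : ℕ) : ℝ)) := by
  obtain ⟨i, hi⟩ : ∃ i : ℤ, i = ⌊x.re * rt (sl 1 a) * 4⌋ := ⟨_, rfl⟩
  have hm2 : |sl 1 a| ≤ 2 := sl_le 1 a ha
  have hrt := one_le_rt (sl 1 a)
  have hw : (w 1 : ℝ) = 8 := by rw [w_cast]; norm_num
  rw [hw] at h3 h4
  have hdx : |(⟨false, 1, a, b, i⟩ : Rd).x - x.re| ≤ 1 / 4 := by
    have e : (⟨false, 1, a, b, i⟩ : Rd).x = ((i : ℝ) / 4) / rt (sl 1 a) := by
      simp only [Rd.x]
      rw [N_cast]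
      norm_num
    rw [e]
    have h1 : ((i : ℝ) / 4) / rt (sl 1 a) - x.re =
        ((i : ℝ) - x.re * rt (sl 1 a) * 4) / (4 * rt (sl 1 a)) := by
      field_simp
    rw [h1, abs_div, abs_of_pos (a := 4 * rt (sl 1 a)) (by positivity)]
    have h2 : |(i : ℝ) - x.re * rt (sl 1 a) * 4| ≤ 1 := by
      rw [hi, abs_le]
      constructor
      · have := Int.sub_one_lt_floor (x.re * rt (sl 1 a) * 4)
        linarith
      · have := Int.floor_le (x.re * rt (sl 1 a) * 4)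
        linarith
    rw [div_le_iff₀ (by positivity)]
    linarith
  have hdx' := abs_le.1 hdx
  have hsdx : |(sg : ℝ) * ((⟨false, 1, a, b, i⟩ : Rd).x - x.re)| ≤ 1 / 4 := by
    rw [abs_mul]
    have : |(sg : ℝ)| = 1 := by
      rcases hsg with h | h <;> rw [h] <;> simp
    rw [this, one_mul]
    exact hdx
  have hsdx' := abs_le.1 hsdx
  refine ⟨⟨false, 1, a, b, i⟩, i, 0, ⟨le_rfl, ha⟩, rfl, rfl, ?_, Chn.nil _, by linarith, ?_, ?_⟩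
  · have h1 : (((⟨false, 1, a, b, i⟩ : Rd).p t - x)).re =
        (⟨false, 1, a, b, i⟩ : Rd).x - x.re := rfl
    have h2 : (((⟨false, 1, a, b, i⟩ : Rd).p t - x)).im =
        sl 1 a * ((⟨false, 1, a, b, i⟩ : Rd).x - x.re) +
          (sl 1 a * x.re + ic t 1 a b - x.im) := by
      rw [Complex.sub_im]
      simp only [Rd.p]
      ring
    have h3' : ‖((⟨false, 1, a, b, i⟩ : Rd).p t - x)‖ ≤
        |((⟨false, 1, a, b, i⟩ : Rd).p t - x).re| + |((⟨false, 1, a, b, i⟩ : Rd).p t - x).im| :=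
      Complex.norm_le_abs_re_add_abs_im _
    have h5 : |sl 1 a * ((⟨false, 1, a, b, i⟩ : Rd).x - x.re)| ≤ 2 * (1 / 4) := by
      rw [abs_mul]
      exact mul_le_mul hm2 hdx (abs_nonneg _) (by norm_num)
    have h6 : |((⟨false, 1, a, b, i⟩ : Rd).p t - x).im| ≤ 1 / 2 + 18 := by
      rw [h2]
      have h5' := abs_le.1 h5
      rw [abs_le]
      constructor <;> linarith
    rw [h1] at h3'
    linarith
  · rw [Nat.sub_self, s_zero]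
    linarith
  · rw [sub_self, dt_zero]
    norm_num

/-- the step of the induction -/
theorem step (hCOS : S_COS) (hRUN : S_RUN) (hSW : S_SW) (t : ℕ → ℤ → ℤ) (x : ℂ) (μ : ℝ)
    (sg : ℤ) (hμ : |μ| ≤ 1) (hsg : sg = 1 ∨ sg = -1) (j : ℕ) (hj : 1 ≤ j) (a b a' b' : ℤ)
    (ha : |a| ≤ 2 * q j) (ha' : |a'| ≤ 2 * q (j + 1))
    (hb1 : B j ≤ (sg : ℝ) * (sl j a - μ)) (hb2 : (sg : ℝ) * (sl j a - μ) ≤ B j + 1 / (q j : ℝ))
    (hd1 : (w j : ℝ) ≤ sl j a * x.re + ic t j a b - x.im)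
    (hd2 : sl j a * x.re + ic t j a b - x.im < 2 * (w j : ℝ))
    (hb1' : -(1 / (q (j + 1) : ℝ)) ≤ (sg : ℝ) * (sl (j + 1) a' - μ))
    (hb2' : (sg : ℝ) * (sl (j + 1) a' - μ) ≤ B (j + 1) + 1 / (q (j + 1) : ℝ))
    (hd1' : (w (j + 1) : ℝ) ≤ sl (j + 1) a' * x.re + ic t (j + 1) a' b' - x.im)
    (hd2' : sl (j + 1) a' * x.re + ic t (j + 1) a' b' - x.im ≤ 9 / 4 * (w (j + 1) : ℝ))
    (p : Rd) (i : ℤ) (n0 : ℕ) (hC : Chn t n0 p ⟨false, j, a, b, i⟩)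
    (hx1 : -1 ≤ (sg : ℝ) * ((⟨false, j, a, b, i⟩ : Rd).x - x.re))
    (hx2 : (sg : ℝ) * ((⟨false, j, a, b, i⟩ : Rd).x - x.re) ≤ 3 * s (j - 1) + 1)
    (hn : (n0 : ℝ) ≤ (sg : ℝ) * dt ((⟨false, j, a, b, i⟩ : Rd).p t - p.p t) μ +
      840 * (1 - 1 / (j : ℝ))) :
    ∃ (i' : ℤ) (n : ℕ), Chn t n p ⟨false, j + 1, a', b', i'⟩ ∧
    -1 ≤ (sg : ℝ) * ((⟨false, j + 1, a', b', i'⟩ : Rd).x - x.re) ∧
    (sg : ℝ) * ((⟨false, j + 1, a', b', i'⟩ : Rd).x - x.re) ≤ 3 * s j + 1 ∧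
    (n : ℝ) ≤ (sg : ℝ) * dt ((⟨false, j + 1, a', b', i'⟩ : Rd).p t - p.p t) μ +
      840 * (1 - 1 / ((j + 1 : ℕ) : ℝ)) := by
  have hsg2 : (sg : ℝ) * sg = 1 := by
    rcases hsg with h | h <;> rw [h] <;> norm_num
  have hsgabs : |(sg : ℝ)| = 1 := by
    rcases hsg with h | h <;> rw [h] <;> simp
  -- constants
  have hB0 := B_pos j
  have hB'0 := B_pos (j + 1)
  have hB14 := B_le j hj
  have hBsucc := B_succ_le j
  have hBle := B_le' j hj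
  have hiq := inv_q j
  have hiq' := inv_q (j + 1)
  have hs0 := s_pos j
  have hs256 := s_ge j hj
  have hsm0 := s_pos (j - 1)
  have hsm : 64 * s (j - 1) ≤ s j := by
    have := s_succ (j - 1)
    rwa [Nat.sub_add_cancel hj] at this
  have hw8 := w_succ j
  have hwe := w_eq j
  have hsB := s_mul_B_sq j
  rw [hiq] at hb2
  rw [hiq'] at hb1' hb2'
  rw [hw8] at hd1' hd2'
  -- abbreviations
  obtain ⟨β, hβ⟩ : ∃ β : ℝ, β = (sg : ℝ) * (sl j a - μ) := ⟨_, rfl⟩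
  obtain ⟨β', hβ'⟩ : ∃ β' : ℝ, β' = (sg : ℝ) * (sl (j + 1) a' - μ) := ⟨_, rfl⟩
  obtain ⟨d, hd⟩ : ∃ d : ℝ, d = sl j a * x.re + ic t j a b - x.im := ⟨_, rfl⟩
  obtain ⟨d', hd'⟩ : ∃ d' : ℝ, d' = sl (j + 1) a' * x.re + ic t (j + 1) a' b' - x.im := ⟨_, rfl⟩
  rw [← hβ] at hb1 hb2
  rw [← hβ'] at hb1' hb2'
  rw [← hd] at hd1 hd2
  rw [← hd'] at hd1' hd2'
  obtain ⟨γ, hγ⟩ : ∃ γ : ℝ, γ = β - β' := ⟨_, rfl⟩
  have hγ1 : 3 / 4 * B j ≤ γ := by rw [hγ]; linarith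
  have hγ2 : γ ≤ 5 / 4 * B j := by rw [hγ]; linarith
  have hγ0 : 0 < γ := by linarith
  obtain ⟨τ, hτ⟩ : ∃ τ : ℝ, τ = (d' - d) / γ := ⟨_, rfl⟩
  have hτγ : τ * γ = d' - d := by rw [hτ]; field_simp
  have hτ1 : 3 / 5 * s j ≤ τ := by
    rw [hτ, le_div_iff₀ hγ0]
    have h1 : 3 / 5 * s j * γ ≤ 3 / 5 * s j * (5 / 4 * B j) := by gcongr
    have h2 : 6 * (w j : ℝ) ≤ d' - d := by linarith
    rw [hwe] at h2
    linarith
  have hτ2 : τ ≤ 3 * s j := by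
    rw [hτ, div_le_iff₀ hγ0]
    have h1 : 3 * s j * (3 / 4 * B j) ≤ 3 * s j * γ := by gcongr
    have h2 : d' - d ≤ 17 * (w j : ℝ) := by linarith
    rw [hwe] at h2
    have h3 : 0 < s j * B j := mul_pos hs0 hB0
    linarith
  obtain ⟨ξ, hξ⟩ : ∃ ξ : ℝ, ξ = (sg : ℝ) * ((⟨false, j, a, b, i⟩ : Rd).x - x.re) := ⟨_, rfl⟩
  rw [← hξ] at hx1 hx2
  have hξτ : ξ ≤ τ := by linarith
  have hrt1 := one_le_rt (sl j a)
  have hrt0 := rt_pos (sl j a)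
  have hrt2 := rt_le (sl j a) (sl_le j a ha)
  have hL0 : 0 ≤ (τ - ξ) * rt (sl j a) := mul_nonneg (by linarith) hrt0.le
  obtain ⟨n1, hn1⟩ : ∃ n1 : ℕ, n1 = ⌊(τ - ξ) * rt (sl j a)⌋₊ := ⟨_, rfl⟩
  have hn1a : (n1 : ℝ) ≤ (τ - ξ) * rt (sl j a) := by rw [hn1]; exact Nat.floor_le hL0
  have hn1b : (τ - ξ) * rt (sl j a) < n1 + 1 := by rw [hn1]; exact Nat.lt_floor_add_one _
  have hokv : (⟨false, j, a, b, i⟩ : Rd).Ok := ⟨hj, ha⟩
  obtain ⟨hR1, hR2, hR3⟩ := hRUN t ⟨false, j, a, b, i⟩ n1 sg hokv hsg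
  obtain ⟨v2, hv2⟩ : ∃ v2 : Rd, v2 = (⟨false, j, a, b, i⟩ : Rd).mv (sg * n1 * N j) := ⟨_, rfl⟩
  have hR1' : Chn t n1 ⟨false, j, a, b, i⟩ v2 := by rw [hv2]; exact hR1
  have hR2' : v2.x = (⟨false, j, a, b, i⟩ : Rd).x + (sg : ℝ) * n1 / rt (sl j a) := by
    rw [hv2]; exact hR2
  have hR3' : dt (v2.p t - (⟨false, j, a, b, i⟩ : Rd).p t) μ =
      (sg : ℝ) * n1 * ((1 + sl j a * μ) / (rt (sl j a) * rt μ)) := by
    rw [hv2]; exact hR3 μ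
  obtain ⟨ξ2, hξ2⟩ : ∃ ξ2 : ℝ, ξ2 = (sg : ℝ) * (v2.x - x.re) := ⟨_, rfl⟩
  have hξ2' : ξ2 = ξ + n1 / rt (sl j a) := by
    rw [hξ2, hR2', hξ]
    have : (sg : ℝ) * ((⟨false, j, a, b, i⟩ : Rd).x + (sg : ℝ) * n1 / rt (sl j a) - x.re) =
      (sg : ℝ) * ((⟨false, j, a, b, i⟩ : Rd).x - x.re) +
        ((sg : ℝ) * sg) * (n1 / rt (sl j a)) := by ring
    rw [this, hsg2, one_mul]
  have hτξ2 : 0 ≤ τ - ξ2 := by
    rw [hξ2']
    have : (n1 : ℝ) / rt (sl j a) ≤ τ - ξ := by rwa [div_le_iff₀ hrt0]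
    linarith
  have hτξ2' : τ - ξ2 ≤ 1 := by
    rw [hξ2']
    have : τ - ξ ≤ ((n1 : ℝ) + 1) / rt (sl j a) := by
      rw [le_div_iff₀ hrt0]; linarith
    have h2 : ((n1 : ℝ) + 1) / rt (sl j a) = n1 / rt (sl j a) + 1 / rt (sl j a) := by
      rw [add_div]
    have h3 : 1 / rt (sl j a) ≤ 1 := by
      rw [div_le_one hrt0]; exact hrt1
    linarith
  -- cosine
  have hβ0 : 0 ≤ β := by linarith
  have hββ : |sl j a - μ| = β := by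
    have h1 : |β| = |sl j a - μ| := by rw [hβ, abs_mul, hsgabs, one_mul]
    rw [← h1, abs_of_nonneg hβ0]
  have hβ2 : (sl j a - μ) ^ 2 = β ^ 2 := by rw [← sq_abs, hββ]
  obtain ⟨hcos, -⟩ := hCOS (sl j a) μ hμ (by rw [hββ]; linarith)
  rw [hβ2] at hcos
  have hn10 : (0 : ℝ) ≤ n1 := Nat.cast_nonneg _
  have hrun : (n1 : ℝ) - n1 * β ^ 2 ≤ (sg : ℝ) * dt (v2.p t - (⟨false, j, a, b, i⟩ : Rd).p t) μ := by
    rw [hR3']
    have h1 : (sg : ℝ) * ((sg : ℝ) * n1 * ((1 + sl j a * μ) / (rt (sl j a) * rt μ))) =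
      ((sg : ℝ) * sg) * (n1 * ((1 + sl j a * μ) / (rt (sl j a) * rt μ))) := by ring
    rw [h1, hsg2, one_mul]
    have h2 := mul_le_mul_of_nonneg_left hcos hn10
    linarith
  have hn1s : (n1 : ℝ) ≤ 34 / 5 * s j := by
    have h1 : (τ - ξ) * rt (sl j a) ≤ (3 * s j + 1) * (9 / 4) :=
      mul_le_mul (by linarith) hrt2 hrt0.le (by linarith)
    linarith
  have hβsq : β ^ 2 ≤ (257 / 256) ^ 2 * B j ^ 2 := by
    rw [← mul_pow]
    apply pow_le_pow_left₀ hβ0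
    linarith
  have hj0 : (0 : ℝ) < ((j : ℝ) + 1) ^ 2 := by positivity
  have hloss : (n1 : ℝ) * β ^ 2 ≤ 440 / ((j : ℝ) + 1) ^ 2 := by
    have h1 : (n1 : ℝ) * β ^ 2 ≤ (34 / 5 * s j) * ((257 / 256) ^ 2 * B j ^ 2) :=
      mul_le_mul hn1s hβsq (sq_nonneg _) (by positivity)
    have h2 : (34 / 5 * s j) * ((257 / 256) ^ 2 * B j ^ 2) =
        34 / 5 * (257 / 256) ^ 2 * (s j * B j ^ 2) := by ring
    rw [h2, hsB] at h1
    refine h1.trans ?_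
    rw [← mul_div_assoc]
    apply div_le_div_of_nonneg_right _ hj0.le
    norm_num
  -- the switch
  have hv2j : v2.j = j := by rw [hv2]; rfl
  have hv2a : v2.a = a := by rw [hv2]; rfl
  have hv2b : v2.b = b := by rw [hv2]; rfl
  have hv2h : v2.h = false := by rw [hv2]; rfl
  have hok2 : v2.Ok := by
    unfold Rd.Ok
    rw [hv2j, hv2a]
    exact ⟨hj, ha⟩
  have hβ'abs : |sl (j + 1) a' - μ| ≤ B j / 4 := by
    have h1 : |β'| = |sl (j + 1) a' - μ| := by rw [hβ', abs_mul, hsgabs, one_mul]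
    rw [← h1, abs_le]
    constructor <;> linarith
  have hβ'sq : (sl (j + 1) a' - μ) ^ 2 ≤ B j := by
    rw [← sq_abs]
    have h0 := abs_nonneg (sl (j + 1) a' - μ)
    calc |sl (j + 1) a' - μ| ^ 2 ≤ (B j / 4) ^ 2 := pow_le_pow_left₀ h0 hβ'abs 2
      _ = B j * (B j / 16) := by ring
      _ ≤ B j * 1 := mul_le_mul_of_nonneg_left (by linarith) hB0.le
      _ = B j := mul_one _
  have hdiff : |sl (j + 1) a' - sl j a| = γ := by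
    have h1 : (sg : ℝ) * (sl (j + 1) a' - sl j a) = -γ := by
      rw [hγ, hβ, hβ']; ring
    have h2 : |(sg : ℝ) * (sl (j + 1) a' - sl j a)| = |sl (j + 1) a' - sl j a| := by
      rw [abs_mul, hsgabs, one_mul]
    rw [← h2, h1, abs_neg, abs_of_pos hγ0]
  have hgap : (sl (j + 1) a' * v2.x + ic t (j + 1) a' b') - (sl j a * v2.x + ic t j a b) =
      γ * (τ - ξ2) := by
    have h1 : v2.x = x.re + (sg : ℝ) * ξ2 := by
      rw [hξ2, ← mul_assoc, hsg2]; ring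
    have h2 : (sg : ℝ) * (sl (j + 1) a' - sl j a) = -γ := by
      rw [hγ, hβ, hβ']; ring
    have h3 : γ * (τ - ξ2) = (d' - d) - γ * ξ2 := by rw [← hτγ]; ring
    rw [h3, h1, hd, hd']
    have h4 : sl (j + 1) a' * (x.re + (sg : ℝ) * ξ2) + ic t (j + 1) a' b' -
        (sl j a * (x.re + (sg : ℝ) * ξ2) + ic t j a b) =
        (sl (j + 1) a' * x.re + ic t (j + 1) a' b' - x.im - (sl j a * x.re + ic t j a b - x.im)) +
          ((sg : ℝ) * (sl (j + 1) a' - sl j a)) * ξ2 := by ring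
    rw [h4, h2]
    ring
  have hgapabs : |(sl (j + 1) a' * v2.x + ic t (j + 1) a' b') - (sl j a * v2.x + ic t j a b)| ≤
      5 / 4 * B j := by
    rw [hgap, abs_of_nonneg (mul_nonneg hγ0.le hτξ2)]
    have : γ * (τ - ξ2) ≤ γ * 1 := mul_le_mul_of_nonneg_left hτξ2' hγ0.le
    linarith
  obtain ⟨i', hA, hS1, hS2, hS3⟩ := hSW t v2 a' b' μ sg hok2 (by rw [hv2j]; exact ha') hμ
    (by rw [hv2j]; linarith) hsg (by rw [hv2j, hv2a, hdiff]; linarith)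
    (by rw [hv2j, hv2a, hv2b]; linarith)
  rw [hv2h, hv2j] at hA hS1 hS2 hS3
  rw [hv2a, hv2b] at hS3
  obtain ⟨v3, hv3⟩ : ∃ v3 : Rd, v3 = (⟨false, j + 1, a', b', i'⟩ : Rd) := ⟨_, rfl⟩
  rw [← hv3] at hA hS1 hS2 hS3
  have hξ3 : (sg : ℝ) * (v3.x - x.re) = ξ2 + (sg : ℝ) * (v3.x - v2.x) := by
    rw [hξ2]; ring
  refine ⟨i', n0 + n1 + 1, ?_, ?_, ?_, ?_⟩
  · rw [← hv3]
    exact (hC.trans hR1').trans (Chn.one hA)
  · rw [← hv3, hξ3]; linarith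
  · rw [← hv3, hξ3]; linarith
  · rw [← hv3]
    have hsum : v3.p t - p.p t = (v3.p t - v2.p t) +
        ((v2.p t - (⟨false, j, a, b, i⟩ : Rd).p t) +
          ((⟨false, j, a, b, i⟩ : Rd).p t - p.p t)) := by ring
    rw [hsum, dt_add, dt_add]
    have hj1 : (1 : ℝ) ≤ j := by exact_mod_cast hj
    have h1 : 1 / ((j : ℝ) + 2) ^ 2 ≤ 1 / ((j : ℝ) + 1) ^ 2 := by
      exact one_div_le_one_div_of_le hj0 (pow_le_pow_left₀ (by linarith) (by linarith) 2)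
    have h2 : 1 / (j : ℝ) - 1 / ((j + 1 : ℕ) : ℝ) ≥ 1 / ((j : ℝ) + 1) ^ 2 := by
      push_cast
      rw [div_sub_div _ _ (by positivity) (by positivity), ge_iff_le,
        div_le_div_iff₀ hj0 (by positivity)]
      have h6 : (1 * ((j : ℝ) + 1) - (j : ℝ) * 1) * ((j : ℝ) + 1) ^ 2 =
          1 * ((j : ℝ) * ((j : ℝ) + 1)) + ((j : ℝ) + 1) := by ring
      rw [h6]
      linarith
    have h3 : 440 / ((j : ℝ) + 1) ^ 2 = 440 * (1 / ((j : ℝ) + 1) ^ 2) := by ring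
    have h4 : 0 < 1 / ((j : ℝ) + 1) ^ 2 := by positivity
    push_cast
    push_cast at h2
    have h5 := hgapabs
    rw [h3] at hloss
    linarith

/-- **KZ-CLIMB** -/
theorem t_CLIMB (hCOS : S_COS) (hRUN : S_RUN) (hSW : S_SW) (hSEL : S_SEL) : S_CLIMB := by
  intro t x μ sg hμ hsg j hj
  induction j, hj using Nat.le_induction with
  | base =>
    intro a b ha _ _ h3 h4
    exact base t x μ sg hsg a b ha h3 h4
  | succ j hj ih =>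
    intro a' b' ha' hb1' hb2' hd1' hd2'
    obtain ⟨a, b, ha, hb1, hb2, hd1, hd2⟩ := hSEL t x μ (B j) sg hμ hsg (B_pos j).le (B_le j hj)
      j hj
    have hq := q_pos j
    have hB := B_pos j
    have hw := w_pos j
    have hq' : 0 < 1 / (q j : ℝ) := by positivity
    obtain ⟨p, i, n0, hp, hpj, hph, hpx, hC, hx1, hx2, hn⟩ := ih a b ha (by linarith) hb2 hd1
      (by linarith)
    obtain ⟨i', n, hC', hy1, hy2, hn'⟩ := step hCOS hRUN hSW t x μ sg hμ hsg j hj a b a' b' ha ha'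
      hb1 hb2 hd1 hd2 hb1' hb2' hd1' hd2' p i n0 hC hx1 hx2 hn
    exact ⟨p, i', n, hp, hpj, hph, hpx, hC', hy1, hy2, hn'⟩

end Pool.Agent.Y907.KZ
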